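import Mathlib

/-!
A tool to compute the graph distance of a finite graph from a table.
-/

namespace Pool.Agent.V11200

open SimpleGraph

/-- If `δ` vanishes on the diagonal, changes by at most one along edges and every `u ≠ v` has a
neighbour one step closer to `v`, then `G` is connected and `δ` is the graph distance. -/
theorem dist_eq_table {V : Type*} [Nonempty V] (G : SimpleGraph V) (δ : V → V → ℕ)
    (h0 : ∀ u, δ u u = 0) (h1 : ∀ u v w, G.Adj u v → δ u w ≤ δ v w + 1)
    (h2 : ∀ u v, u ≠ v → ∃ w, G.Adj u w ∧ δ w v + 1 = δ u v) :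
    G.Connected ∧ ∀ u v, G.dist u v = δ u v := by
  have low : ∀ {u v : V} (p : G.Walk u v), δ u v ≤ p.length := by
    intro u v p
    induction p with
    | nil => simp [h0]
    | @cons u w v hadj q ih =>
      have := h1 u w v hadj
      simp only [Walk.length_cons]
      omega
  have up : ∀ n : ℕ, ∀ u v : V, δ u v = n → ∃ p : G.Walk u v, p.length = n := by
    intro n
    induction n with
    | zero =>
      intro u v h
      by_cases huv : u = v
      · subst huv; exact ⟨Walk.nil, rfl⟩
      · obtain ⟨w, _, hw⟩ := h2 u v huv
        omega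
    | succ n ih =>
      intro u v h
      have huv : u ≠ v := by
        rintro rfl
        rw [h0] at h; omega
      obtain ⟨w, hw1, hw2⟩ := h2 u v huv
      obtain ⟨p, hp⟩ := ih w v (by omega)
      exact ⟨Walk.cons hw1 p, by simp [hp]⟩
  have hconn : G.Connected := by
    rw [connected_iff]
    refine ⟨fun u v => ?_, inferInstance⟩
    obtain ⟨p, _⟩ := up _ u v rfl
    exact p.reachable
  refine ⟨hconn, fun u v => le_antisymm ?_ ?_⟩
  · obtain ⟨p, hp⟩ := up _ u v rfl
    rw [← hp]; exact dist_le p
  · obtain ⟨p, hp⟩ := hconn.exists_walk_length_eq_dist u v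
    rw [← hp]; exact low p

end Pool.Agent.V11200
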